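import Pool.Agent.H98.G4.Rn
import Pool.Agent.H72.G4.Row

/-!
# No 5-cycle through an inner vertex of the context

* `Two T D C Z u s e` : the side of `C` at `u` between `s` and `e` has two real vertices or a vertex
  of `Z`.
* `five_ctx` : a chordless real 5-cycle through an inner vertex `u` of a `Ctx` region does not have
  `Two` on both sides.
-/

set_option autoImplicit false

namespace Pool.Agent.H98.G4

open Relation Pool.Agent.H13.DA Pool.Agent.H72.G4 Pool.Agent.H13.G4 Pool.Agent.H96.G4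

variable {V : Type*} [DecidableEq V] {T X Y : Finset (V × V × V)} {D : V → V → Prop} {a b c : V}
  {Z C : List V}

/-- the side of `C` at `u` between `s` and `e` has two real vertices or a vertex of `Z` -/
def Two (T : Finset (V × V × V)) (D : V → V → Prop) (C Z : List V) (u s e : V) : Prop :=
  (∃ v v', v ≠ v' ∧ Sd T D C u s e v ∧ Sd T D C u s e v') ∨ ∃ z, z ∈ Z ∧ Sd T D C u s e z

theorem ctx_chl (hT : Ts T D a b c) (hC : Ctx T X D a b c Z) : Chl D Z := by
  rcases hC.bnd with ⟨_, rfl⟩ | ⟨h, _⟩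
  · obtain ⟨o1, o2, o3⟩ := hT.out
    have irr : ∀ u, ¬ Ar D u u := fun u h => h.elim (fun k => hT.pl.asymm u u k k)
      (fun k => hT.pl.asymm u u k k)
    refine ⟨?_, ?_⟩
    · intro x y h
      rcases cyc3_iff.1 h with ⟨rfl, rfl⟩ | ⟨rfl, rfl⟩ | ⟨rfl, rfl⟩
      · exact o1
      · exact o2
      · exact o3
    · intro x y hx hy h
      simp only [List.mem_cons, List.not_mem_nil, or_false] at hx hy
      rw [cyc3_iff, cyc3_iff]
      rcases hx with rfl | rfl | rfl <;> rcases hy with rfl | rfl | rfl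
      · exact absurd h (irr _)
      · exact Or.inl (Or.inl ⟨rfl, rfl⟩)
      · exact Or.inr (Or.inr (Or.inr ⟨rfl, rfl⟩))
      · exact Or.inr (Or.inl ⟨rfl, rfl⟩)
      · exact absurd h (irr _)
      · exact Or.inl (Or.inr (Or.inl ⟨rfl, rfl⟩))
      · exact Or.inl (Or.inr (Or.inr ⟨rfl, rfl⟩))
      · exact Or.inr (Or.inr (Or.inl ⟨rfl, rfl⟩))
      · exact absurd h (irr _)
  · exact h.chl

/-- neighbours of inner vertices are in the region -/
theorem ctx_nb (hT : Ts T D a b c) (hC : Ctx T X D a b c Z) {v y : V} (hv : In X D Z v)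
    (h : Adj T v y) : y ∈ verts X :=
  (adj_vert hC.reg.disc.cx ((hC.reg.adj_iff hT hv.1 hv.2.2).2 h)).2.1

/-- inner vertices of the region are inner -/
theorem ctx_in (hT : Ts T D a b c) (hC : Ctx T X D a b c Z) {v : V} (hv : In X D Z v) :
    ¬ Tr a b c v := hC.reg.inner hT hv.1 hv.2.2

omit [DecidableEq V] in
theorem Two.mono {C' : List V} {u s e : V} (h : Two T D C Z u s e)
    (hC : ∀ x, x ∈ C' → x ∈ C) : Two T D C' Z u s e := by
  have ee : ∀ x y, (Adj T x y ∧ y ∉ C) → (Adj T x y ∧ y ∉ C') := fun x y h =>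
    ⟨h.1, fun h' => h.2 (hC y h')⟩
  have tr : ∀ {z : V}, Sd T D C u s e z → Sd T D C' u s e z := by
    rintro z ⟨z1, t, z2, z3⟩
    exact ⟨z1, t, z2, ReflTransGen.mono ee _ _ z3⟩
  rcases h with ⟨v, v', h1, h2, h3⟩ | ⟨z, h1, h2⟩
  · exact Or.inl ⟨v, v', h1, tr h2, tr h3⟩
  · exact Or.inr ⟨z, h1, tr h2⟩

/-- **No 5-cycle.** -/
theorem five_ctx (hT : Ts T D a b c) (hC : Ctx T X D a b c Z) {u o p q i : V}
    (hu : In X D Z u) (hp : p ∈ verts X) (hq : q ∈ verts X)
    (h1 : Ar D u o) (h2 : Ar D o p) (h3 : Ar D p q) (h4 : Ar D q i) (h5 : Ar D i u)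
    (n1 : ¬ Ar D u p) (n2 : ¬ Ar D u q) (n3 : ¬ Ar D o q) (n4 : ¬ Ar D o i) (n5 : ¬ Ar D p i)
    (A : Two T D [u, o, p, q, i] Z u o i) (B : Two T D [u, o, p, q, i] Z u i o) : False := by
  have cT := hT.pl.disc.cx
  have irr : ∀ u, ¬ D u u := fun u h => hT.pl.asymm u u h h
  have hZ := ctx_chl hT hC
  have ho : o ∈ verts X := ctx_nb hT hC hu (hT.pl.ar_adj h1)
  have hi : i ∈ verts X := ctx_nb hT hC hu (hT.pl.ar_adj (ar_symm h5))
  have hch : Chl D [u, o, p, q, i] := H98.G4.chl5 irr h1 h2 h3 h4 h5 n1 n2 n3 n4 n5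
  have hnd : [u, o, p, q, i].Nodup := by
    simp only [List.nodup_cons, List.mem_cons, List.not_mem_nil, or_false, not_or,
      not_false_eq_true, List.nodup_nil, and_true]
    refine ⟨⟨ar_ne cT hT.pl h1, ?_, ?_, (ar_ne cT hT.pl h5).symm⟩, ⟨ar_ne cT hT.pl h2, ?_, ?_⟩,
      ⟨ar_ne cT hT.pl h3, ?_⟩, ar_ne cT hT.pl h4⟩
    · rintro rfl
      exact n2 h3
    · rintro rfl
      exact n1 (ar_symm h3)
    · rintro rfl
      exact n4 h4
    · rintro rfl
      exact n3 (ar_symm h4)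
    · rintro rfl
      exact n1 (ar_symm h5)
  have hadj : ∀ x y, Cyc [u, o, p, q, i] x y → Adj X x y := by
    intro x y h
    have hm : ∀ z, z ∈ [u, o, p, q, i] → z ∈ verts X := by
      intro z hz
      simp only [List.mem_cons, List.not_mem_nil, or_false] at hz
      rcases hz with rfl | rfl | rfl | rfl | rfl
      · exact hu.1
      · exact ho
      · exact hp
      · exact hq
      · exact hi
    exact reg_edge hT hC.reg hZ (hm x (cyc_mem h).1) (hm y (cyc_mem h).2) (hch.arc x y h)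
  have hre : ∀ v, v ∈ [u, o, p, q, i] → Re D v := by
    intro z hz
    obtain ⟨y, hy⟩ := (mem_cyc hz).1
    exact ⟨y, hch.arc z y hy⟩
  have huC : u ∈ [u, o, p, q, i] := by simp
  have c1 : Cyc [u, o, p, q, i] u o := cyc5_iff.2 (Or.inl ⟨rfl, rfl⟩)
  have c2 : Cyc [u, o, p, q, i] i u :=
    cyc5_iff.2 (Or.inr (Or.inr (Or.inr (Or.inr ⟨rfl, rfl⟩))))
  have key : ∀ (Y : Finset (V × V × V)) (C : List V) (s e : V), Y ⊆ X → Reg T Y D C → Chl D C →
      C.length = 5 → u ∈ C → Cyc C u s → Cyc C e u → Two T D C Z u s e → False := by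
    intro Y C s e k1 k2 k3 k4 k5 k6 k7 k8
    have m1 := hC.five Y C k1 k2 k3 k4 ⟨u, k5, hu.2.2⟩
    rcases k8 with ⟨v, v', hne, j1, j2⟩ | ⟨z, j1, j2⟩
    · have m2 := H98.G4.nin_two (sd_in hT k2 k3 k6 k7 j1) (sd_in hT k2 k3 k6 k7 j2) hne
      omega
    · obtain ⟨l1, l2, _⟩ := sd_in hT k2 k3 k6 k7 j2
      exact (reg_in hC.reg k2 k1 l1 l2).2 j1
  obtain ⟨Y, k1, k2, k3⟩ := reg_cut cT hC.reg hnd (by simp) hadj hre
  rcases k2 with k2 | k2
  · exact key Y _ o i k1 k2 hch (by simp) huC c1 c2 A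
  · exact key Y _ i o k1 k2 (Chl.rev hch) (by simp) (List.mem_reverse.2 huC)
      ((cyc_reverse [u, o, p, q, i] u i).2 c2) ((cyc_reverse [u, o, p, q, i] o u).2 c1)
      (B.mono fun x h => List.mem_reverse.1 h)

end Pool.Agent.H98.G4
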