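import Pool.Agent.H96.G4.Four
import Pool.Agent.H72.G4.Rot

/-!
# The final region, the smallest 5-cycle, no 5-cycle through an inner vertex

* `Rn T X D Z` : region with chordless boundary, all inner real vertices good, every chordless real
  5-cycle region in it with fewer inner real vertices has at most one of them.
* `four_empty` : the region of a 4-cycle through a good inner vertex has no inner real vertex.
* `stageB` : in a region with good inner vertices either `Rn` holds, or there is a smallest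
  5-cycle region with at least three inner real vertices, for which `Rg` and `Rn` hold.
* `Sd T D C u s e v` : `v` is real and joined, off `C`, to a vertex of the link of `u` strictly between
  `s` and `e`.
* `five_no` : a chordless real 5-cycle through an inner vertex `u` of an `Rn` region does not have
  two real vertices on each side.
-/

set_option autoImplicit false

namespace Pool.Agent.H98.G4

open Relation Pool.Agent.H13.DA Pool.Agent.H72.G4 Pool.Agent.H13.G4 Pool.Agent.H96.G4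

variable {V : Type*} [DecidableEq V] {T X Y : Finset (V × V × V)} {D : V → V → Prop} {a b c : V}
  {Z C : List V}

/-- the final region -/
structure Rn (T X : Finset (V × V × V)) (D : V → V → Prop) (Z : List V) : Prop where
  reg : Reg T X D Z
  chl : Chl D Z
  good : ∀ v, v ∈ verts X → Re D v → v ∉ Z → Good T D v
  five : ∀ Y C, Y ⊆ X → Reg T Y D C → Chl D C → C.length = 5 → nin Y D C < nin X D Z →
    nin Y D C ≤ 1

theorem reg_in (hX : Reg T X D Z) (hY : Reg T Y D C) (h : Y ⊆ X) {v : V} (hv : v ∈ verts Y)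
    (hvC : v ∉ C) : v ∈ verts X ∧ v ∉ Z := by
  refine ⟨verts_mono h hv, inner_off hX.disc.cx hY.disc.cx h hY.bd hX.bd ?_ hv hvC⟩
  intro x hx hx'
  refine hY.sep x hx ?_
  obtain ⟨y, z, hxy⟩ := mem_verts.1 hx'
  obtain ⟨h1, h2⟩ := Finset.mem_sdiff.1 hxy
  exact vert1 (Finset.mem_sdiff.2 ⟨hX.sub h1, h2⟩)

/-- neighbours of inner vertices are in the region -/
theorem Rn.nb (hR : Rn T X D Z) (hT : Ts T D a b c) {v y : V} (hv : v ∈ verts X) (hvZ : v ∉ Z)
    (h : Adj T v y) : y ∈ verts X :=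
  (adj_vert hR.reg.disc.cx ((hR.reg.adj_iff hT hv hvZ).2 h)).2.1

/-! ### rotating about a vertex -/

/-- `t` is reached from `s` by rotating about `u` without meeting `e` -/
inductive Fn (T : Finset (V × V × V)) (u e s : V) : V → Prop
  | first {t : V} : (u, s, t) ∈ T → t ≠ e → Fn T u e s t
  | step {t t' : V} : Fn T u e s t → (u, t, t') ∈ T → t' ≠ e → Fn T u e s t'

/-- `v` is real and joined, off the list `C`, to a vertex of the link of `u` strictly between
`s` and `e` -/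
def Sd (T : Finset (V × V × V)) (D : V → V → Prop) (C : List V) (u s e v : V) : Prop :=
  Re D v ∧ ∃ t, Fn T u e s t ∧ ReflTransGen (fun x y => Adj T x y ∧ y ∉ C) t v

omit [DecidableEq V] in
theorem Fn.ne {u e s t : V} (h : Fn T u e s t) : t ≠ e := by
  cases h with
  | first _ h => exact h
  | step _ _ h => exact h

omit [DecidableEq V] in
theorem Fn.tri {u e s t : V} (h : Fn T u e s t) : ∃ r, (u, r, t) ∈ T := by
  cases h with
  | first h _ => exact ⟨_, h⟩
  | step _ h _ => exact ⟨_, h⟩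

theorem fn_in (cT : IsCx T) (hR : Reg T Y D C) {u o i t : V} (ho : Cyc C u o) (hi : Cyc C i u)
    (h : Fn T u i o t) : (∃ r, (u, r, t) ∈ Y) ∧ t ≠ o := by
  have cY := hR.disc.cx
  have bo := bd_cyc hR.bd ho
  have fo : ∀ {r x : V}, (u, r, x) ∈ Y → x ≠ o := by
    rintro r x hx rfl
    exact bo.2 ⟨r, (rot3 cY hx).2⟩
  induction h with
  | @first t h1 h2 =>
    obtain ⟨z, hz⟩ := bo.1
    have e := cT.uniq (hR.sub hz) h1
    subst e
    exact ⟨⟨o, hz⟩, fo hz⟩
  | @step t t' h1 h2 h3 ih =>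
    obtain ⟨⟨r, hr⟩, _⟩ := ih
    by_cases hd : Dir Y u t
    · obtain ⟨z, hz⟩ := hd
      have e := cT.uniq (hR.sub hz) h2
      subst e
      exact ⟨⟨t, hz⟩, fo hz⟩
    · exfalso
      have hb : Bd Y t u := bd_dir.2 ⟨⟨r, (rot3 cY hr).2⟩, hd⟩
      have hc := (hR.bd.iff t u).1 hb
      exact h1.ne (cyc_unique' hR.bd.nodup hc hi)

theorem sd_in (hT : Ts T D a b c) (hR : Reg T Y D C) (hC : Chl D C) {u o i v : V}
    (ho : Cyc C u o) (hi : Cyc C i u) (h : Sd T D C u o i v) :
    v ∈ verts Y ∧ v ∉ C ∧ Re D v := by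
  have cT := hT.pl.disc.cx
  have cY := hR.disc.cx
  obtain ⟨hvr, t, ht, hr⟩ := h
  obtain ⟨⟨r, hr1⟩, hto⟩ := fn_in cT hR ho hi ht
  have htY : t ∈ verts Y := vert3 cY hr1
  have htC : t ∉ C := by
    intro hc
    have har : Ar D u t := hT.re u t (Or.inr ⟨r, hR.sub (rot3 cY hr1).2⟩)
      (hR.re u (cyc_mem ho).1) (hR.re t hc)
    rcases hC.nbr hR.bd.nodup ho hi t hc har with e | e
    · exact hto e
    · exact ht.ne e
  have key : ∀ v, ReflTransGen (fun x y => Adj T x y ∧ y ∉ C) t v → v ∈ verts Y ∧ v ∉ C := by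
    intro v hv
    induction hv with
    | refl => exact ⟨htY, htC⟩
    | tail _ h ih =>
      obtain ⟨h1, h2⟩ := h
      obtain ⟨i1, i2⟩ := ih
      refine ⟨?_, h2⟩
      rcases h1 with ⟨z, hz⟩ | ⟨z, hz⟩
      · exact vert2 cY (hR.tri_in i1 i2 hz)
      · exact vert3 cY (hR.tri_in i1 i2 (cT.rot hz))
  obtain ⟨k1, k2⟩ := key v hr
  exact ⟨k1, k2, hvr⟩

theorem nin_two {v v' : V} (h : v ∈ verts Y ∧ v ∉ C ∧ Re D v) (h' : v' ∈ verts Y ∧ v' ∉ C ∧ Re D v')
    (hne : v ≠ v') : 2 ≤ nin Y D C := by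
  classical
  by_contra hcon
  have h1 : nin Y D C ≤ 1 := by omega
  unfold nin at h1
  rw [Finset.card_le_one] at h1
  exact hne (h1 v (Finset.mem_filter.2 ⟨h.1, h.2.2, h.2.1⟩) v'
    (Finset.mem_filter.2 ⟨h'.1, h'.2.2, h'.2.1⟩))

omit [DecidableEq V] in
theorem Chl.rev (h : Chl D C) : Chl D C.reverse := by
  refine ⟨fun x y k => ar_symm (h.arc y x ((cyc_reverse C x y).1 k)), ?_⟩
  intro x y hx hy k
  rw [cyc_reverse, cyc_reverse]
  exact (h.ch x y (List.mem_reverse.1 hx) (List.mem_reverse.1 hy) k).symm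

omit [DecidableEq V] in
theorem chl5 {u o p q i : V} (irr : ∀ x, ¬ D x x) (h1 : Ar D u o) (h2 : Ar D o p)
    (h3 : Ar D p q) (h4 : Ar D q i) (h5 : Ar D i u) (n1 : ¬ Ar D u p) (n2 : ¬ Ar D u q)
    (n3 : ¬ Ar D o q) (n4 : ¬ Ar D o i) (n5 : ¬ Ar D p i) : Chl D [u, o, p, q, i] := by
  have irr' : ∀ x, ¬ Ar D x x := fun x h => h.elim (irr x) (irr x)
  refine ⟨?_, ?_⟩
  · intro x y h
    rcases cyc5_iff.1 h with ⟨rfl, rfl⟩ | ⟨rfl, rfl⟩ | ⟨rfl, rfl⟩ | ⟨rfl, rfl⟩ | ⟨rfl, rfl⟩
    · exact h1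
    · exact h2
    · exact h3
    · exact h4
    · exact h5
  · intro x y hx hy h
    simp only [List.mem_cons, List.not_mem_nil, or_false] at hx hy
    rw [cyc5_iff, cyc5_iff]
    rcases hx with rfl | rfl | rfl | rfl | rfl <;> rcases hy with rfl | rfl | rfl | rfl | rfl
    · exact absurd h (irr' _)
    · exact Or.inl (Or.inl ⟨rfl, rfl⟩)
    · exact absurd h n1
    · exact absurd h n2
    · exact Or.inr (Or.inr (Or.inr (Or.inr (Or.inr ⟨rfl, rfl⟩))))
    · exact Or.inr (Or.inl ⟨rfl, rfl⟩)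
    · exact absurd h (irr' _)
    · exact Or.inl (Or.inr (Or.inl ⟨rfl, rfl⟩))
    · exact absurd h n3
    · exact absurd h n4
    · exact absurd (ar_symm h) n1
    · exact Or.inr (Or.inr (Or.inl ⟨rfl, rfl⟩))
    · exact absurd h (irr' _)
    · exact Or.inl (Or.inr (Or.inr (Or.inl ⟨rfl, rfl⟩)))
    · exact absurd h n5
    · exact absurd (ar_symm h) n2
    · exact absurd (ar_symm h) n3
    · exact Or.inr (Or.inr (Or.inr (Or.inl ⟨rfl, rfl⟩)))
    · exact absurd h (irr' _)
    · exact Or.inl (Or.inr (Or.inr (Or.inr (Or.inl ⟨rfl, rfl⟩))))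
    · exact Or.inl (Or.inr (Or.inr (Or.inr (Or.inr ⟨rfl, rfl⟩))))
    · exact absurd (ar_symm h) n4
    · exact absurd (ar_symm h) n5
    · exact Or.inr (Or.inr (Or.inr (Or.inr (Or.inl ⟨rfl, rfl⟩))))
    · exact absurd h (irr' _)

/-- **No 5-cycle.** A chordless real 5-cycle `u o p q i` through an inner vertex `u`, with `p` and `q`
in the region, does not have two real vertices on each side. -/
theorem five_no (hT : Ts T D a b c) (hR : Rn T X D Z) {u o p q i : V} (hu : u ∈ verts X)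
    (huZ : u ∉ Z) (hp : p ∈ verts X) (hq : q ∈ verts X)
    (h1 : Ar D u o) (h2 : Ar D o p) (h3 : Ar D p q) (h4 : Ar D q i) (h5 : Ar D i u)
    (n1 : ¬ Ar D u p) (n2 : ¬ Ar D u q) (n3 : ¬ Ar D o q) (n4 : ¬ Ar D o i) (n5 : ¬ Ar D p i)
    {v v' y y' : V} (hv : Sd T D [u, o, p, q, i] u o i v) (hv' : Sd T D [u, o, p, q, i] u o i v')
    (hvv : v ≠ v') (hy : Sd T D [u, o, p, q, i] u i o y) (hy' : Sd T D [u, o, p, q, i] u i o y')
    (hyy : y ≠ y') : False := by
  have cT := hT.pl.disc.cx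
  have irr : ∀ u, ¬ D u u := fun u h => hT.pl.asymm u u h h
  have ho : o ∈ verts X := hR.nb hT hu huZ (hT.pl.ar_adj h1)
  have hi : i ∈ verts X := hR.nb hT hu huZ (hT.pl.ar_adj (ar_symm h5))
  have hC : Chl D [u, o, p, q, i] := chl5 irr h1 h2 h3 h4 h5 n1 n2 n3 n4 n5
  have hnd : [u, o, p, q, i].Nodup := by
    simp only [List.nodup_cons, List.mem_cons, List.not_mem_nil, or_false, not_or,
      not_false_eq_true, List.nodup_nil, and_true]
    refine ⟨⟨ar_ne cT hT.pl h1, ?_, ?_, (ar_ne cT hT.pl h5).symm⟩, ⟨ar_ne cT hT.pl h2, ?_, ?_⟩,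
      ⟨ar_ne cT hT.pl h3, ?_⟩, ar_ne cT hT.pl h4⟩
    · rintro rfl
      exact n2 h3
    · rintro rfl
      exact n1 (ar_symm h3)
    · rintro rfl
      exact n4 h4
    · rintro rfl
      exact n3 (ar_symm h4)
    · rintro rfl
      exact n1 (ar_symm h5)
  have hadj : ∀ x y, Cyc [u, o, p, q, i] x y → Adj X x y := by
    intro x y h
    have hm : ∀ z, z ∈ [u, o, p, q, i] → z ∈ verts X := by
      intro z hz
      simp only [List.mem_cons, List.not_mem_nil, or_false] at hz
      rcases hz with rfl | rfl | rfl | rfl | rfl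
      · exact hu
      · exact ho
      · exact hp
      · exact hq
      · exact hi
    exact reg_edge hT hR.reg hR.chl (hm x (cyc_mem h).1) (hm y (cyc_mem h).2) (hC.arc x y h)
  have hre : ∀ v, v ∈ [u, o, p, q, i] → Re D v := by
    intro z hz
    obtain ⟨y, hy⟩ := (mem_cyc hz).1
    exact ⟨y, hC.arc z y hy⟩
  obtain ⟨Y, k1, k2, k3⟩ := reg_cut cT hR.reg hnd (by simp) hadj hre
  have huC : u ∈ [u, o, p, q, i] := by simp
  have c1 : Cyc [u, o, p, q, i] u o := cyc5_iff.2 (Or.inl ⟨rfl, rfl⟩)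
  have c2 : Cyc [u, o, p, q, i] i u :=
    cyc5_iff.2 (Or.inr (Or.inr (Or.inr (Or.inr ⟨rfl, rfl⟩))))
  rcases k2 with k2 | k2
  · have m1 := hR.five Y _ k1 k2 hC (by simp) (nin_lt (fun v hv _ hvC => k3 v hv hvC) hu
      (hre u huC) huZ (fun _ => huC))
    have m2 := nin_two (sd_in hT k2 hC c1 c2 hv) (sd_in hT k2 hC c1 c2 hv') hvv
    omega
  · have m1 := hR.five Y _ k1 k2 (Chl.rev hC) (by simp) (nin_lt (fun v hv _ hvC => k3 v hv
      (fun h => hvC (List.mem_reverse.2 h))) hu (hre u huC) huZ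
      (fun _ => List.mem_reverse.2 huC))
    have tr : ∀ {z : V}, Sd T D [u, o, p, q, i] u i o z →
        Sd T D [u, o, p, q, i].reverse u i o z := by
      rintro z ⟨z1, t, z2, z3⟩
      have e : ∀ x y, (Adj T x y ∧ y ∉ [u, o, p, q, i]) →
          (Adj T x y ∧ y ∉ [u, o, p, q, i].reverse) := fun x y h =>
        ⟨h.1, fun h' => h.2 (List.mem_reverse.1 h')⟩
      exact ⟨z1, t, z2, ReflTransGen.mono e _ _ z3⟩
    have c1' := (cyc_reverse [u, o, p, q, i] u i).2 c2
    have c2' := (cyc_reverse [u, o, p, q, i] o u).2 c1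
    have m2 := nin_two (sd_in hT k2 (Chl.rev hC) c1' c2' (tr hy))
      (sd_in hT k2 (Chl.rev hC) c1' c2' (tr hy')) hyy
    omega

/-! ### the region of a 4-cycle through a good vertex -/

omit [DecidableEq V] in
theorem not_closed (hT : Ts T D a b c) {U : Finset (V × V × V)} (hU : U ⊆ T) (cU : IsCx U)
    (clo : ∀ p q, Dir U p q → Dir U q p) (ne : U.Nonempty) : False := by
  have dT := hT.pl.disc
  have e : U = T := sub_eq_bd dT.cx dT.conn hU cU (fun p q h1 _ => clo p q h1) ne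
  obtain ⟨u, v, huv⟩ := dT.bd
  obtain ⟨h1, h2⟩ := bd_dir.1 huv
  rw [← e] at h1 h2
  exact h2 (clo u v h1)

omit [DecidableEq V] in
theorem un_mem (cT : IsCx T) (hY : Y ⊆ T) {x y z : V} (h : Dir Y x y) (h' : (x, y, z) ∈ T) :
    (x, y, z) ∈ Y := by
  obtain ⟨t, ht⟩ := h
  rwa [cT.uniq (hY ht) h'] at ht

/-- the region of a 4-cycle `w p o q` through a good vertex `w` has no inner real vertex -/
theorem four_empty [Infinite V] (hT : Ts T D a b c) {w p o q : V} (hw : ¬ Tr a b c w)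
    (hg : Good T D w) (hR : Reg T Y D [w, p, o, q]) (hpq : ¬ Ar D p q) :
    ∀ v, v ∈ verts Y → Re D v → v = w ∨ v = p ∨ v = o ∨ v = q := by
  classical
  have cT := hT.pl.disc.cx
  have cY := hR.disc.cx
  have e1 : Cyc [w, p, o, q] w p := cyc4_iff.2 (Or.inl ⟨rfl, rfl⟩)
  have e2 : Cyc [w, p, o, q] p o := cyc4_iff.2 (Or.inr (Or.inl ⟨rfl, rfl⟩))
  have e3 : Cyc [w, p, o, q] o q := cyc4_iff.2 (Or.inr (Or.inr (Or.inl ⟨rfl, rfl⟩)))
  have e4 : Cyc [w, p, o, q] q w := cyc4_iff.2 (Or.inr (Or.inr (Or.inr ⟨rfl, rfl⟩)))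
  have b1 := bd_cyc hR.bd e1
  have b2 := bd_cyc hR.bd e2
  have b3 := bd_cyc hR.bd e3
  have b4 := bd_cyc hR.bd e4
  have a1 := bd_ar hT hR e1
  have a2 := bd_ar hT hR e2
  have a3 := bd_ar hT hR e3
  have a4 := bd_ar hT hR e4
  have nd := hR.bd.nodup
  simp only [List.nodup_cons, List.mem_cons, List.not_mem_nil, or_false, not_or,
    not_false_eq_true, List.nodup_nil, and_true] at nd
  obtain ⟨⟨m1, m2, m3⟩, ⟨m4, m5⟩, m6⟩ := nd
  by_cases hwo : Ar D w o
  · -- the chord is in `Y`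
    have f1 : Face T w p o := by
      rcases hT.fc w p o (hT.pl.ar_adj a1) (hT.pl.ar_adj a2) (hT.pl.ar_adj hwo).symm with h | h
      · exact h
      · exact absurd h.1 hw
    have f2 : Face T w o q := by
      rcases hT.fc w o q (hT.pl.ar_adj hwo) (hT.pl.ar_adj a3) (hT.pl.ar_adj a4) with h | h
      · exact h
      · exact absurd h.1 hw
    have hadj : Adj Y w o := by
      rcases f1 with h | h
      · exact Or.inr ⟨p, (rot3 cY (un_mem cT hR.sub b1.1 h)).2⟩
      · rcases f2 with h' | h'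
        · have := un_mem cT hR.sub b3.1 (rot3 cT h').1
          exact Or.inl ⟨q, (rot3 cY this).2⟩
        · exfalso
          -- (w, o, p), (w, q, o)
          have s1 : tri w o p ⊆ T := tri_sub cT h
          have s2 : tri w q o ⊆ T := tri_sub cT h'
          have cA : IsCx (Y ∪ tri w o p) := cx_union cT hR.sub s1 cY (tri_isCx cT h)
          have hU : Y ∪ tri w o p ∪ tri w q o ⊆ T :=
            Finset.union_subset (Finset.union_subset hR.sub s1) s2
          have cU : IsCx (Y ∪ tri w o p ∪ tri w q o) :=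
            cx_union cT (Finset.union_subset hR.sub s1) s2 cA (tri_isCx cT h')
          refine not_closed hT hU cU ?_ ⟨(w, o, p), Finset.mem_union_left _
            (Finset.mem_union_right _ (mem_tri.2 (Or.inl rfl)))⟩
          intro x y hxy
          rw [dir_union, dir_union] at hxy ⊢
          rcases hxy with (k | k) | k
          · by_cases h2 : Dir Y y x
            · exact Or.inl (Or.inl h2)
            · rcases cyc4_iff.1 ((hR.bd.iff x y).1 (bd_dir.2 ⟨k, h2⟩)) with ⟨rfl, rfl⟩ |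
                ⟨rfl, rfl⟩ | ⟨rfl, rfl⟩ | ⟨rfl, rfl⟩
              · exact Or.inl (Or.inr (dir_tri.2 (Or.inr (Or.inr ⟨rfl, rfl⟩))))
              · exact Or.inl (Or.inr (dir_tri.2 (Or.inr (Or.inl ⟨rfl, rfl⟩))))
              · exact Or.inr (dir_tri.2 (Or.inr (Or.inl ⟨rfl, rfl⟩)))
              · exact Or.inr (dir_tri.2 (Or.inl ⟨rfl, rfl⟩))
          · rcases dir_tri.1 k with ⟨rfl, rfl⟩ | ⟨rfl, rfl⟩ | ⟨rfl, rfl⟩
            · exact Or.inr (dir_tri.2 (Or.inr (Or.inr ⟨rfl, rfl⟩)))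
            · exact Or.inl (Or.inl b2.1)
            · exact Or.inl (Or.inl b1.1)
          · rcases dir_tri.1 k with ⟨rfl, rfl⟩ | ⟨rfl, rfl⟩ | ⟨rfl, rfl⟩
            · exact Or.inl (Or.inl b4.1)
            · exact Or.inl (Or.inl b3.1)
            · exact Or.inl (Or.inr (dir_tri.2 (Or.inl ⟨rfl, rfl⟩)))
    have hR' : Reg T Y D (w :: ([p] ++ o :: [q])) := hR
    obtain ⟨A, B, e, s1, s2, r1, r2, -⟩ := reg_chord cT hR' (by simp) (by simp) hadj
    intro v hv _
    rw [e, verts_union, Finset.mem_union] at hv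
    rcases hv with hv | hv
    · rcases reg_tri hT r1 (fun h => hw h.1) v hv with rfl | rfl | rfl
      · exact Or.inl rfl
      · exact Or.inr (Or.inl rfl)
      · exact Or.inr (Or.inr (Or.inl rfl))
    · rcases reg_tri hT r2 (fun h => hw h.2.2) v hv with rfl | rfl | rfl
      · exact Or.inr (Or.inr (Or.inl rfl))
      · exact Or.inr (Or.inr (Or.inr rfl))
      · exact Or.inl rfl
  · -- a dummy
    rcases hg p q o a1 (ar_symm a4) m5 hpq (Ne.symm m2) a2 (ar_symm a3) with h | ⟨d, dr, d1, d2, d3, d4⟩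
    · exact absurd h hwo
    have hdT : d ∈ verts T := (adj_vert cT d1).1
    have dl : d ∉ [a, b, c] := fun h => dr ((reg_self hT).re d h)
    have hdZ : d ∉ [w, p, o, q] := fun h => dr (hR.re d h)
    obtain ⟨L, l1, l2, l3, l4, l5⟩ := link hT.pl.disc hT.pl.bd hdT dl
    have hL : L ≠ [] := by
      rintro rfl
      simp at l2
    -- the neighbours of the dummy
    have hmem : ∀ x, x ∈ L → x = w ∨ x = p ∨ x = o ∨ x = q := by
      obtain ⟨x1, x2, x3, x4, f1, f2, f3, f4, f5⟩ := hT.du d hdT dr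
      have hsub : ({w, p, o, q} : Finset V) ⊆ {x1, x2, x3, x4} := by
        intro x hx
        simp only [Finset.mem_insert, Finset.mem_singleton] at hx ⊢
        rcases hx with rfl | rfl | rfl | rfl
        · exact (f5 _).1 d1
        · exact (f5 _).1 d2
        · exact (f5 _).1 d4
        · exact (f5 _).1 d3
      have hc1 : ({w, p, o, q} : Finset V).card = 4 := by
        rw [Finset.card_insert_of_notMem, Finset.card_insert_of_notMem,
          Finset.card_insert_of_notMem, Finset.card_singleton]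
        · simpa using m6
        · simpa using ⟨m4, m5⟩
        · simpa using ⟨m1, m2, m3⟩
      have hc2 : ({x1, x2, x3, x4} : Finset V).card ≤ 4 := Finset.card_le_four
      have heq := Finset.eq_of_subset_of_card_le hsub (by omega)
      intro x hx
      have h := (f5 x).1 ((l5 x).2 hx)
      have h' : x ∈ ({x1, x2, x3, x4} : Finset V) := by simpa using h
      rw [← heq] at h'
      simpa using h'
    have hreL : ∀ x, x ∈ L → Re D x := fun x hx => hR.re x (by simpa using hmem x hx)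
    have hLZ : ∀ x y, Cyc L x y → Cyc [w, p, o, q] x y ∨ Cyc [w, p, o, q] y x := by
      intro x y h
      have h1 := (l4 x y).2 h
      have har : Ar D x y := hT.re x y (Or.inl ⟨d, cT.rot h1⟩) (hreL x (cyc_mem h).1)
        (hreL y (cyc_mem h).2)
      have hne := (cx_ne cT h1).2.1
      rw [cyc4_iff, cyc4_iff]
      rcases hmem x (cyc_mem h).1 with rfl | rfl | rfl | rfl <;>
        rcases hmem y (cyc_mem h).2 with rfl | rfl | rfl | rfl
      · exact absurd rfl hne
      · exact Or.inl (Or.inl ⟨rfl, rfl⟩)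
      · exact absurd har hwo
      · exact Or.inr (Or.inr (Or.inr (Or.inr ⟨rfl, rfl⟩)))
      · exact Or.inr (Or.inl ⟨rfl, rfl⟩)
      · exact absurd rfl hne
      · exact Or.inl (Or.inr (Or.inl ⟨rfl, rfl⟩))
      · exact absurd har hpq
      · exact absurd (ar_symm har) hwo
      · exact Or.inr (Or.inr (Or.inl ⟨rfl, rfl⟩))
      · exact absurd rfl hne
      · exact Or.inl (Or.inr (Or.inr (Or.inl ⟨rfl, rfl⟩)))
      · exact Or.inl (Or.inr (Or.inr (Or.inr ⟨rfl, rfl⟩)))
      · exact absurd (ar_symm har) hpq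
      · exact Or.inr (Or.inr (Or.inr (Or.inl ⟨rfl, rfl⟩)))
      · exact absurd rfl hne
    have hcone := (cone_disc d l1 l2 l3).1.cx
    by_cases hdY : d ∈ verts Y
    · have lX : ∀ x y, Cyc L x y → (d, x, y) ∈ Y := fun x y h =>
        hR.tri_in hdY hdZ ((l4 x y).2 h)
      have hsub : cone d L ⊆ Y := by
        rintro ⟨p', q', r'⟩ ht
        rw [mem_cone] at ht
        rcases ht with ⟨rfl, h1⟩ | ⟨rfl, h1⟩ | ⟨rfl, h1⟩
        · exact lX q' r' h1
        · exact (rot3 cY (lX r' p' h1)).2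
        · exact (rot3 cY (lX p' q' h1)).1
      have heq := sub_eq_bd cY hR.disc.conn hsub hcone (by
        intro x y h1 h2
        rw [dir_cone] at h1 ⊢
        rcases h1 with ⟨rfl, h1⟩ | ⟨rfl, h1⟩ | h1
        · exact Or.inr (Or.inl ⟨rfl, h1⟩)
        · exact Or.inl ⟨rfl, h1⟩
        · exfalso
          rcases hLZ x y h1 with k | k
          · exact (bd_cyc hR.bd k).2 h2
          · exact (bd_cyc hR.bd k).2 ⟨d, cY.rot (lX x y h1)⟩) (by
        obtain ⟨x, hx⟩ := List.exists_mem_of_ne_nil L hL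
        obtain ⟨y, hy⟩ := (mem_cyc hx).1
        exact ⟨(d, x, y), (mem_cone _ _ _ _ _).2 (Or.inl ⟨rfl, hy⟩)⟩)
      intro v hv hvr
      rw [← heq, verts_cone d hL] at hv
      rcases hv with rfl | hv
      · exact absurd hvr dr
      · exact hmem v hv
    · exfalso
      have hrev : ∀ x y, Cyc L x y → Cyc [w, p, o, q] y x := by
        intro x y h
        rcases hLZ x y h with k | k
        · exfalso
          have := un_mem cT hR.sub (bd_cyc hR.bd k).1 (cT.rot ((l4 x y).2 h))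
          exact hdY (vert3 cY this)
        · exact k
      have hiff := cyc_sub (l := L) (Z := [w, p, o, q].reverse)
        (List.nodup_reverse.2 hR.bd.nodup) hL (fun x y h => (cyc_reverse _ x y).2 (hrev x y h))
      have hsub : cone d L ⊆ T := by
        rintro ⟨p', q', r'⟩ ht
        rw [mem_cone] at ht
        rcases ht with ⟨rfl, h1⟩ | ⟨rfl, h1⟩ | ⟨rfl, h1⟩
        · exact (l4 q' r').2 h1
        · exact (rot3 cT ((l4 r' p').2 h1)).2
        · exact (rot3 cT ((l4 p' q').2 h1)).1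
      refine not_closed hT (Finset.union_subset hR.sub hsub)
        (cx_union cT hR.sub hsub cY hcone) ?_ ?_
      · intro x y hxy
        rw [dir_union] at hxy ⊢
        rcases hxy with k | k
        · by_cases h2 : Dir Y y x
          · exact Or.inl h2
          · right
            rw [dir_cone]
            right; right
            exact (hiff y x).2 ((cyc_reverse _ y x).2 ((hR.bd.iff x y).1 (bd_dir.2 ⟨k, h2⟩)))
        · rw [dir_cone] at k
          rcases k with ⟨rfl, h1⟩ | ⟨rfl, h1⟩ | h1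
          · exact Or.inr ((dir_cone _ _ _ _).2 (Or.inr (Or.inl ⟨rfl, h1⟩)))
          · exact Or.inr ((dir_cone _ _ _ _).2 (Or.inl ⟨rfl, h1⟩))
          · exact Or.inl (bd_cyc hR.bd (hrev x y h1)).1
      · obtain ⟨z, hz⟩ := b1.1
        exact ⟨_, Finset.mem_union_left _ hz⟩

/-! ### the smallest 5-cycle -/

omit [DecidableEq V] in
theorem rot5 (hn : C.Nodup) (h5 : C.length = 5) {v p r : V} (hp : Cyc C v p) (hr : Cyc C r v) :
    ∃ o1 o2, C ~r [p, o1, o2, r, v] := by
  obtain ⟨m, hm⟩ := rot_head (cyc_mem hp).1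
  have hlen : (v :: m).length = 5 := by rw [← hm.perm.length_eq]; exact h5
  match m, hlen with
  | [m1, m2, m3, m4], _ =>
    have h1 := (cyc_rot hm v p).1 hp
    have h2 := (cyc_rot hm r v).1 hr
    have nd : [v, m1, m2, m3, m4].Nodup := hm.nodup_iff.1 hn
    have e1 : p = m1 := cyc_unique nd h1 (cyc5_iff.2 (Or.inl ⟨rfl, rfl⟩))
    have e2 : r = m4 := cyc_unique' nd h2
      (cyc5_iff.2 (Or.inr (Or.inr (Or.inr (Or.inr ⟨rfl, rfl⟩)))))
    subst e1 e2
    exact ⟨m2, m3, hm.trans ⟨1, by simp [List.rotate]⟩⟩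

theorem nin_zero (h : ∀ v, v ∈ verts Y → Re D v → v ∈ C) : nin Y D C = 0 := by
  classical
  unfold nin
  rw [Finset.card_eq_zero, Finset.filter_eq_empty_iff]
  rintro v hv ⟨h1, h2⟩
  exact h2 (h v hv h1)

/-- at a smallest 5-cycle region no inner vertex is joined to both neighbours of a boundary
vertex -/
theorem no2_five [Infinite V] (hT : Ts T D a b c) (hR : Reg T X D C) (hC : Chl D C)
    (h5 : C.length = 5) (hg : ∀ v, v ∈ verts X → Re D v → v ∉ C → Good T D v)
    (h3 : 3 ≤ nin X D C) (hmin : ∀ Y C', Y ⊆ X → Reg T Y D C' → Chl D C' → C'.length = 5 →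
      nin Y D C' < nin X D C → nin Y D C' ≤ 1) : No2 X D C := by
  classical
  intro v p r hp hr w hw hwC hwr h1 h2
  have cT := hT.pl.disc.cx
  have cX := hR.disc.cx
  have irr : ∀ u, ¬ D u u := fun u h => hT.pl.asymm u u h h
  obtain ⟨o1, o2, hrot⟩ := rot5 hR.bd.nodup h5 hp hr
  have hw' : ¬ Tr a b c w := hR.inner hT hw hwC
  have hgw := hg w hw hwr hwC
  have hR' : Reg T X D (p :: ([o1, o2] ++ r :: [v])) := reg_rot hR hrot
  have hmem : ∀ x, x ∈ C ↔ x ∈ [p, o1, o2, r, v] := fun x => hrot.mem_iff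
  have hwC' : w ∉ p :: ([o1, o2] ++ r :: [v]) := fun h => hwC ((hmem w).2 h)
  have nd : [p, o1, o2, r, v].Nodup := hrot.nodup_iff.1 hR.bd.nodup
  simp only [List.nodup_cons, List.mem_cons, List.not_mem_nil, or_false, not_or,
    not_false_eq_true, List.nodup_nil, and_true] at nd
  obtain ⟨⟨d1, d2, d3, d4⟩, ⟨d5, d6, d7⟩, ⟨d8, d9⟩, d10⟩ := nd
  -- chords
  have hch : ∀ x y, x ∈ [p, o1, o2, r, v] → y ∈ [p, o1, o2, r, v] → Ar D x y →
      Cyc [p, o1, o2, r, v] x y ∨ Cyc [p, o1, o2, r, v] y x := by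
    intro x y hx hy h
    rcases hC.ch x y ((hmem x).2 hx) ((hmem y).2 hy) h with k | k
    · exact Or.inl ((cyc_rot hrot _ _).1 k)
    · exact Or.inr ((cyc_rot hrot _ _).1 k)
  have npo2 : ¬ Ar D p o2 := by
    intro h
    rcases hch p o2 (by simp) (by simp) h with k | k <;> rw [cyc5_iff] at k
    · rcases k with ⟨_, e⟩ | ⟨e, _⟩ | ⟨e, _⟩ | ⟨e, _⟩ | ⟨e, _⟩
      · exact d5 e.symm
      · exact d1 e
      · exact d2 e
      · exact d3 e
      · exact d4 e
    · rcases k with ⟨e, _⟩ | ⟨e, _⟩ | ⟨_, e⟩ | ⟨_, e⟩ | ⟨e, _⟩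
      · exact d2 e.symm
      · exact d5 e.symm
      · exact d3 e
      · exact d4 e
      · exact d9 e
  have npr : ¬ Ar D p r := by
    intro h
    rcases hch p r (by simp) (by simp) h with k | k <;> rw [cyc5_iff] at k
    · rcases k with ⟨_, e⟩ | ⟨e, _⟩ | ⟨e, _⟩ | ⟨e, _⟩ | ⟨e, _⟩
      · exact d6 e.symm
      · exact d1 e
      · exact d2 e
      · exact d3 e
      · exact d4 e
    · rcases k with ⟨e, _⟩ | ⟨_, e⟩ | ⟨_, e⟩ | ⟨_, e⟩ | ⟨e, _⟩
      · exact d3 e.symm
      · exact d2 e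
      · exact d3 e
      · exact d4 e
      · exact d10 e
  have no1r : ¬ Ar D o1 r := by
    intro h
    rcases hch o1 r (by simp) (by simp) h with k | k <;> rw [cyc5_iff] at k
    · rcases k with ⟨e, _⟩ | ⟨_, e⟩ | ⟨e, _⟩ | ⟨e, _⟩ | ⟨e, _⟩
      · exact d1 e.symm
      · exact d8 e.symm
      · exact d5 e
      · exact d6 e
      · exact d7 e
    · rcases k with ⟨e, _⟩ | ⟨e, _⟩ | ⟨_, e⟩ | ⟨_, e⟩ | ⟨e, _⟩
      · exact d3 e.symm
      · exact d6 e.symm
      · exact d6 e
      · exact d7 e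
      · exact d10 e
  have arC : ∀ x y, Cyc [p, o1, o2, r, v] x y → Ar D x y := fun x y k =>
    hC.arc x y ((cyc_rot hrot _ _).2 k)
  have aprc : Ar D p o1 := arC _ _ (cyc5_iff.2 (Or.inl ⟨rfl, rfl⟩))
  have ao12 : Ar D o1 o2 := arC _ _ (cyc5_iff.2 (Or.inr (Or.inl ⟨rfl, rfl⟩)))
  have ao2r : Ar D o2 r := arC _ _ (cyc5_iff.2 (Or.inr (Or.inr (Or.inl ⟨rfl, rfl⟩))))
  obtain ⟨X1, X2, e, s1, s2, r1, r2, hm⟩ := reg_two cT hR' hwC' hwr h1.symm h2.symm
  have r1' : Reg T X1 D [p, o1, o2, r, w] := r1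
  have r2' : Reg T X2 D [r, v, p, w] := r2
  have wo1 : o1 ≠ w := fun h => hwC' (by simp [h])
  have wo2 : o2 ≠ w := fun h => hwC' (by simp [h])
  have wv : v ≠ w := fun h => hwC' (by simp [h])
  have hv2 : v ∈ verts X2 := r2'.bd.verts r2.disc.cx (by simp)
  have ho1 : o1 ∈ verts X1 := r1'.bd.verts r1.disc.cx (by simp)
  have ho2 : o2 ∈ verts X1 := r1'.bd.verts r1.disc.cx (by simp)
  have no1 : o1 ∉ verts X2 := fun h => by
    rcases hm _ ho1 h with h | h | h
    · exact d1 h.symm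
    · exact d6 h
    · exact wo1 h
  have no2 : o2 ∉ verts X2 := fun h => by
    rcases hm _ ho2 h with h | h | h
    · exact d2 h.symm
    · exact d8 h
    · exact wo2 h
  -- the 4-cycle is empty
  have k2 := four_empty hT hw' hgw (reg_rot r2' ⟨3, by simp [List.rotate]⟩ : Reg T X2 D [w, r, v, p])
    (fun h => npr (ar_symm h))
  -- counting
  have hcount : nin X D C ≤ nin X1 D [p, o1, o2, r, w] + 1 := by
    unfold nin
    refine (Finset.card_le_card (t := insert w ((verts X1).filter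
      (fun v => Re D v ∧ v ∉ [p, o1, o2, r, w]))) ?_).trans (Finset.card_insert_le _ _)
    intro u hu
    obtain ⟨u1, u2, u3⟩ := Finset.mem_filter.1 hu
    have u3' : u ∉ [p, o1, o2, r, v] := fun h => u3 ((hmem u).2 h)
    simp only [List.mem_cons, List.not_mem_nil, or_false, not_or] at u3'
    obtain ⟨f1, f2, f3, f4, f5⟩ := u3'
    rw [Finset.mem_insert]
    by_cases huw : u = w
    · exact Or.inl huw
    right
    rw [e, verts_union, Finset.mem_union] at u1
    rcases u1 with u1 | u1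
    · refine Finset.mem_filter.2 ⟨u1, u2, ?_⟩
      simp only [List.mem_cons, List.not_mem_nil, or_false, not_or]
      exact ⟨f1, f2, f3, f4, huw⟩
    · exfalso
      rcases k2 u u1 u2 with h | h | h | h
      · exact huw h
      · exact f4 h
      · exact f5 h
      · exact f1 h
  have hlt : nin X1 D [p, o1, o2, r, w] < nin X D C :=
    nin_lt (fun u hu _ huC => reg_in hR r1' s1 hu huC) hw hwr hwC (fun _ => by simp)
  -- no chord at `w`
  have un : ∀ {x y : V}, Adj X x y → Adj X1 x y ∨ Adj X2 x y := by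
    intro x y h
    rcases h with ⟨t, ht⟩ | ⟨t, ht⟩
    · rw [e, Finset.mem_union] at ht
      rcases ht with ht | ht
      · exact Or.inl (Or.inl ⟨t, ht⟩)
      · exact Or.inr (Or.inl ⟨t, ht⟩)
    · rw [e, Finset.mem_union] at ht
      rcases ht with ht | ht
      · exact Or.inl (Or.inr ⟨t, ht⟩)
      · exact Or.inr (Or.inr ⟨t, ht⟩)
  have toX1 : ∀ {x : V}, x ∉ verts X2 → Ar D w x → Adj X1 w x := by
    intro x hx h
    rcases un ((hR.adj_iff hT hw hwC).2 (hT.pl.ar_adj h)) with k | k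
    · exact k
    · exact absurd (adj_vert r2.disc.cx k).2.1 hx
  have nw1 : ¬ Ar D w o1 := by
    intro h
    have hR1 : Reg T X1 D (w :: ([p] ++ o1 :: [o2, r])) :=
      reg_rot r1' ⟨4, by simp [List.rotate]⟩
    obtain ⟨A, B, e', t1, t2, q1, q2, -⟩ := reg_chord cT hR1 (by simp) (by simp) (toX1 no1 h)
    have q2' : Reg T B D [w, o1, o2, r] := reg_rot q2 ⟨3, by simp [List.rotate]⟩
    have k4 := four_empty hT hw' hgw q2' no1r
    have : nin X1 D [p, o1, o2, r, w] = 0 := by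
      apply nin_zero
      intro u hu hur
      rw [e', verts_union, Finset.mem_union] at hu
      rcases hu with hu | hu
      · rcases reg_tri hT q1 (fun h => hw' h.1) u hu with rfl | rfl | rfl <;> simp
      · rcases k4 u hu hur with rfl | rfl | rfl | rfl <;> simp
    omega
  have nw2 : ¬ Ar D w o2 := by
    intro h
    have hR1 : Reg T X1 D (o2 :: ([r] ++ w :: [p, o1])) :=
      reg_rot r1' ⟨2, by simp [List.rotate]⟩
    obtain ⟨A, B, e', t1, t2, q1, q2, -⟩ := reg_chord cT hR1 (by simp) (by simp)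
      (toX1 no2 h).symm
    have q2' : Reg T B D [w, p, o1, o2] := q2
    have k4 := four_empty hT hw' hgw q2' npo2
    have : nin X1 D [p, o1, o2, r, w] = 0 := by
      apply nin_zero
      intro u hu hur
      rw [e', verts_union, Finset.mem_union] at hu
      rcases hu with hu | hu
      · rcases reg_tri hT q1 (fun h => hw' h.2.2) u hu with rfl | rfl | rfl <;> simp
      · rcases k4 u hu hur with rfl | rfl | rfl | rfl <;> simp
    omega
  have hch1 : Chl D [p, o1, o2, r, w] := chl5 irr aprc ao12 ao2r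
    (hT.re r w (by
      rcases h2 with ⟨z, hz⟩ | ⟨z, hz⟩
      · exact Or.inr ⟨z, hR.sub hz⟩
      · exact Or.inl ⟨z, hR.sub hz⟩) (ar_re ao2r).2 hwr)
    (hT.re w p (by
      rcases h1 with ⟨z, hz⟩ | ⟨z, hz⟩
      · exact Or.inl ⟨z, hR.sub hz⟩
      · exact Or.inr ⟨z, hR.sub hz⟩) hwr (ar_re aprc).1)
    npo2 npr no1r (fun h => nw1 (ar_symm h)) (fun h => nw2 (ar_symm h))
  have := hmin X1 _ s1 r1' hch1 (by simp) hlt
  omega

/-- **Stage B.** In a region with good inner vertices either `Rn` holds, or a smallest 5-cycle region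
has `Rg`, `Rn` and at least three inner real vertices. -/
theorem stageB [Infinite V] (hT : Ts T D a b c) (hR : Reg T X D Z) (hZ : Chl D Z)
    (hg : ∀ v, v ∈ verts X → Re D v → v ∉ Z → Good T D v)
    (base : ∀ Y C, Reg T Y D C → Chl D C → C.length = 5 →
      (∀ v, v ∈ verts Y → Re D v → v ∉ C → Good T D v) → nin Y D C = 2 → False) :
    Rn T X D Z ∨ ∃ Y C, C.length = 5 ∧ Y ⊆ X ∧ Rg T Y D C ∧ Rn T Y D C ∧ 3 ≤ nin Y D C := by
  classical
  by_cases h : ∃ n Y C, Y ⊆ X ∧ Reg T Y D C ∧ Chl D C ∧ C.length = 5 ∧ 2 ≤ nin Y D C ∧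
      nin Y D C = n
  · right
    obtain ⟨Y, C, k1, k2, k3, k4, k5, k6⟩ := Nat.find_spec h
    have hmin : ∀ Y' C', Y' ⊆ Y → Reg T Y' D C' → Chl D C' → C'.length = 5 →
        nin Y' D C' < nin Y D C → nin Y' D C' ≤ 1 := by
      intro Y' C' j1 j2 j3 j4 j5
      by_contra hcon
      have := Nat.find_min' h ⟨Y', C', j1.trans k1, j2, j3, j4, by omega, rfl⟩
      omega
    have hg' : ∀ v, v ∈ verts Y → Re D v → v ∉ C → Good T D v := by
      intro v hv hvr hvC
      obtain ⟨j1, j2⟩ := reg_in hR k2 k1 hv hvC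
      exact hg v j1 hvr j2
    have h3 : 3 ≤ nin Y D C := by
      by_contra hcon
      exact base Y C k2 k3 k4 hg' (by omega)
    have hin : ∃ u, u ∈ verts Y ∧ Re D u ∧ u ∉ C := by
      by_contra hcon
      have : nin Y D C = 0 := nin_zero (fun v hv hvr => by
        by_contra hvC
        exact hcon ⟨v, hv, hvr, hvC⟩)
      omega
    exact ⟨Y, C, k4, k1, ⟨k2, k3, by omega, fun u hu hur huC => hg' u hu hur huC, hin,
      no2_five hT k2 k3 k4 hg' h3 hmin⟩, ⟨k2, k3, hg', hmin⟩, h3⟩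
  · left
    refine ⟨hR, hZ, hg, ?_⟩
    intro Y C j1 j2 j3 j4 _
    by_contra hcon
    exact h ⟨_, Y, C, j1, j2, j3, j4, by omega, rfl⟩

/-! ### the rotation -/

omit [DecidableEq V] in
/-- the real neighbours strictly between `x α` and `x β` -/
theorem rot_fn {u : V} {n : ℕ} {x : Fin (n + 1) → V}
    {w : Fin (n + 1) → CT} (hr : Rot T D u n x w) (β : Fin (n + 1)) (i : Fin (n + 1)) {s : V}
    (hs : s = x i ∨ Fn T u (x β) s (x i)) (hi : i + 1 ≠ β) : Fn T u (x β) s (x (i + 1)) := by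
  have nev : x (i + 1) ≠ x β := fun h => hi (hr.inj h)
  have hc := hr.cor i
  have two : ∀ d, (u, x i, d) ∈ T → (u, d, x (i + 1)) ∈ T → d ≠ x β →
      Fn T u (x β) s (x (i + 1)) := by
    intro d h1 h2 h3
    rcases hs with rfl | hs
    · exact Fn.step (Fn.first h1 h3) h2 nev
    · exact Fn.step (Fn.step hs h1 h3) h2 nev
  have one : (u, x i, x (i + 1)) ∈ T → Fn T u (x β) s (x (i + 1)) := by
    intro h1
    rcases hs with rfl | hs
    · exact Fn.first h1 nev
    · exact Fn.step hs h1 nev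
  have reβ : Re D (x β) := (ar_re ((hr.nb (x β)).2 ⟨β, rfl⟩)).2
  cases hw : w i with
  | q =>
    rw [hw] at hc
    obtain ⟨⟨d, d1, d2, d3⟩, _⟩ := hc
    exact two d d2 d3 (fun h => d1 (h ▸ reβ))
  | s1 =>
    rw [hw] at hc
    exact one hc.1
  | s2 =>
    rw [hw] at hc
    exact one hc.1
  | m =>
    rw [hw] at hc
    exact one hc.1

omit [DecidableEq V] in
/-- the dummy of a quad corner strictly between `x α` and `x β` -/
theorem rot_fn_dummy {u : V} {n : ℕ} {x : Fin (n + 1) → V}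
    {w : Fin (n + 1) → CT} (hr : Rot T D u n x w) (β : Fin (n + 1)) (i : Fin (n + 1)) {s d : V}
    (hs : s = x i ∨ Fn T u (x β) s (x i)) (hd : ¬ Re D d) (h : (u, x i, d) ∈ T) :
    Fn T u (x β) s d := by
  have reβ : Re D (x β) := (ar_re ((hr.nb (x β)).2 ⟨β, rfl⟩)).2
  have hne : d ≠ x β := fun h => hd (h ▸ reβ)
  rcases hs with rfl | hs
  · exact Fn.first h hne
  · exact Fn.step hs h hne

omit [DecidableEq V] in
/-- a real link vertex off the cycle is on its side -/
theorem Fn.sd {u e s t : V} (h : Fn T u e s t) (hr : Re D t) : Sd T D C u s e t :=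
  ⟨hr, t, h, ReflTransGen.refl⟩

omit [DecidableEq V] in
/-- a real vertex joined to a dummy of the side -/
theorem Fn.sd_dummy {u e s d v : V} (h : Fn T u e s d) (hr : Re D v) (hdv : Adj T d v)
    (hv : v ∉ C) : Sd T D C u s e v :=
  ⟨hr, d, h, ReflTransGen.single ⟨hdv, hv⟩⟩

omit [DecidableEq V] in
/-- one more step off the cycle -/
theorem Sd.step {u e s v v' : V} (h : Sd T D C u s e v) (hr : Re D v') (hd : Adj T v v')
    (hv : v' ∉ C) : Sd T D C u s e v' := by
  obtain ⟨_, t, h1, h2⟩ := h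
  exact ⟨hr, t, h1, h2.tail ⟨hd, hv⟩⟩

end Pool.Agent.H98.G4
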